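import Mathlib
import Pool.Agent.Results.MP_96963f_co.SharpExponent

/-!
Self-dual extension of a switching function by two variables.

`sd f (a, t, u) = (t ∧ f a) ∨ (u ∧ f*(a)) ∨ (t ∧ u)`, `f*` the dual function.  It is self-dual, it
is monotone if `f` is, it is not weighted if `f` is not, and it is `k`-summable only if `f` is.
-/

set_option autoImplicit false

namespace Pool.Agent.Y243.SDual

open Pool.Agent.Results.MP_96963f_co.SharpExponent Finset

/-- the complement of a vector -/
def cpl {n : ℕ} (x : Fin n → Bool) : Fin n → Bool := fun i => !x i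

/-- `f` is self-dual -/
def IsSelfDual {n : ℕ} (f : (Fin n → Bool) → Bool) : Prop := ∀ x, f (cpl x) = !f x

/-- the self-dual extension -/
def sd {n : ℕ} (f : (Fin n → Bool) → Bool) (x : Fin (n + 2) → Bool) : Bool :=
  (x (Fin.natAdd n 0) && f (fun i => x (Fin.castAdd 2 i))) ||
    (x (Fin.natAdd n 1) && !f (fun i => !x (Fin.castAdd 2 i))) ||
    (x (Fin.natAdd n 0) && x (Fin.natAdd n 1))

variable {n : ℕ}

lemma sd_selfDual (f : (Fin n → Bool) → Bool) : IsSelfDual (sd f) := by
  intro x
  unfold sd cpl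
  simp only [Bool.not_not]
  generalize x (Fin.natAdd n 0) = t
  generalize x (Fin.natAdd n 1) = u
  generalize f (fun i => x (Fin.castAdd 2 i)) = F
  generalize f (fun i => !x (Fin.castAdd 2 i)) = G
  cases t <;> cases u <;> cases F <;> cases G <;> rfl

lemma bool_mono : ∀ t u F G t' u' F' G' : Bool, F ≤ F' → G' ≤ G → t ≤ t' → u ≤ u' →
    ((t && F) || (u && !G) || (t && u)) ≤ ((t' && F') || (u' && !G') || (t' && u')) := by
  decide

lemma bool_not : ∀ a b : Bool, a ≤ b → (!b) ≤ (!a) := by
  decide

lemma sd_monotone {f : (Fin n → Bool) → Bool} (hf : Monotone f) : Monotone (sd f) := by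
  intro x y hxy
  have h1 : f (fun i => x (Fin.castAdd 2 i)) ≤ f (fun i => y (Fin.castAdd 2 i)) :=
    hf (fun i => hxy _)
  have h2 : f (fun i => !y (Fin.castAdd 2 i)) ≤ f (fun i => !x (Fin.castAdd 2 i)) := by
    apply hf
    intro i
    exact bool_not _ _ (hxy (Fin.castAdd 2 i))
  have h3 := hxy (Fin.natAdd n 0)
  have h4 := hxy (Fin.natAdd n 1)
  unfold sd
  exact bool_mono _ _ _ _ _ _ _ _ h1 h2 h3 h4

/-- the vector `(a, 1, 0)` -/
def ext (a : Fin n → Bool) : Fin (n + 2) → Bool := Fin.append a ![true, false]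

lemma sd_ext (f : (Fin n → Bool) → Bool) (a : Fin n → Bool) : sd f (ext a) = f a := by
  unfold sd ext
  simp only [Fin.append_left, Fin.append_right]
  simp

lemma sd_not_threshold {f : (Fin n → Bool) → Bool} (hf : ¬ IsThreshold f) :
    ¬ IsThreshold (sd f) := by
  rintro ⟨w, q, h⟩
  apply hf
  refine ⟨fun i => w (Fin.castAdd 2 i), q - w (Fin.natAdd n 0), fun a => ?_⟩
  rw [← sd_ext f a, h (ext a), Fin.sum_univ_add]
  unfold ext
  simp only [Fin.append_left, Fin.append_right]
  simp only [Fin.sum_univ_two]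
  simp
  

lemma toNat_add {F G t u : Bool} (h : ((t && F) || (u && !G) || (t && u)) = true) :
    1 ≤ t.toNat + u.toNat := by
  revert h
  cases t <;> cases u <;> cases F <;> cases G <;> decide

lemma toNat_add' {F G t u : Bool} (h : ((t && F) || (u && !G) || (t && u)) = false) :
    t.toNat + u.toNat ≤ 1 := by
  revert h
  cases t <;> cases u <;> cases F <;> cases G <;> decide

/-- A certificate for `sd f` gives a certificate of the same length for `f`. -/
lemma sd_ksummable {f : (Fin n → Bool) → Bool} {k : ℕ} (h : KSummable k (sd f)) :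
    KSummable k f := by
  obtain ⟨x, y, hx, hy, hs⟩ := h
  have hx1 : ∀ j, 1 ≤ (x j (Fin.natAdd n 0)).toNat + (x j (Fin.natAdd n 1)).toNat :=
    fun j => toNat_add (hx j)
  have hy1 : ∀ j, (y j (Fin.natAdd n 0)).toNat + (y j (Fin.natAdd n 1)).toNat ≤ 1 :=
    fun j => toNat_add' (hy j)
  have hs0 := hs (Fin.natAdd n 0)
  have hs1 := hs (Fin.natAdd n 1)
  have hsx : ∑ j : Fin k, 1 ≤
      ∑ j, ((x j (Fin.natAdd n 0)).toNat + (x j (Fin.natAdd n 1)).toNat) :=
    Finset.sum_le_sum (fun j _ => hx1 j)
  have hsy : ∑ j, ((y j (Fin.natAdd n 0)).toNat + (y j (Fin.natAdd n 1)).toNat) ≤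
      ∑ j : Fin k, 1 := Finset.sum_le_sum (fun j _ => hy1 j)
  have hxy : ∑ j, ((x j (Fin.natAdd n 0)).toNat + (x j (Fin.natAdd n 1)).toNat) =
      ∑ j, ((y j (Fin.natAdd n 0)).toNat + (y j (Fin.natAdd n 1)).toNat) := by
    rw [Finset.sum_add_distrib, Finset.sum_add_distrib, hs0, hs1]
  have hex : ∀ j, (x j (Fin.natAdd n 0)).toNat + (x j (Fin.natAdd n 1)).toNat = 1 := by
    have h1 : ∑ j : Fin k, 1 =
      ∑ j, ((x j (Fin.natAdd n 0)).toNat + (x j (Fin.natAdd n 1)).toNat) := by omega
    have h2 := (Finset.sum_eq_sum_iff_of_le (fun j _ => hx1 j)).1 h1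
    exact fun j => (h2 j (Finset.mem_univ j)).symm
  have hey : ∀ j, (y j (Fin.natAdd n 0)).toNat + (y j (Fin.natAdd n 1)).toNat = 1 := by
    have h1 : ∑ j, ((y j (Fin.natAdd n 0)).toNat + (y j (Fin.natAdd n 1)).toNat) =
      ∑ j : Fin k, 1 := by omega
    have h2 := (Finset.sum_eq_sum_iff_of_le (fun j _ => hy1 j)).1 h1
    exact fun j => (h2 j (Finset.mem_univ j))
  have key := @ksummable_of_counts (Fin n) f (Fin k ⊕ Fin k) (Fin k ⊕ Fin k) _ _
    (Sum.elim (fun j => (x j (Fin.natAdd n 0)).toNat) (fun j => (y j (Fin.natAdd n 1)).toNat))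
    (Sum.elim (fun j => (y j (Fin.natAdd n 0)).toNat) (fun j => (x j (Fin.natAdd n 1)).toNat))
    (Sum.elim (fun j i => x j (Fin.castAdd 2 i)) (fun j i => !y j (Fin.castAdd 2 i)))
    (Sum.elim (fun j i => y j (Fin.castAdd 2 i)) (fun j i => !x j (Fin.castAdd 2 i)))
    ?_ ?_ ?_ ?_
  · have e : (∑ i, Sum.elim (fun j => (x j (Fin.natAdd n 0)).toNat)
        (fun j => (y j (Fin.natAdd n 1)).toNat) i) = k := by
      rw [Fintype.sum_sum_type]
      simp only [Sum.elim_inl, Sum.elim_inr]
      rw [← hs1, ← Finset.sum_add_distrib, Finset.sum_congr rfl (fun j _ => hex j)]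
      simp
    rwa [e] at key
  · rintro (j | j) hj
    · simp only [Sum.elim_inl] at hj ⊢
      have h1 := hex j
      have h2 := hx j
      unfold sd at h2
      revert h1 h2 hj
      generalize x j (Fin.natAdd n 0) = t
      generalize x j (Fin.natAdd n 1) = u
      generalize f (fun i => x j (Fin.castAdd 2 i)) = F
      generalize f (fun i => !x j (Fin.castAdd 2 i)) = G
      cases t <;> cases u <;> cases F <;> cases G <;> simp
    · simp only [Sum.elim_inr] at hj ⊢
      have h1 := hey j
      have h2 := hy j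
      unfold sd at h2
      revert h1 h2 hj
      generalize y j (Fin.natAdd n 0) = t
      generalize y j (Fin.natAdd n 1) = u
      generalize f (fun i => y j (Fin.castAdd 2 i)) = F
      generalize f (fun i => !y j (Fin.castAdd 2 i)) = G
      cases t <;> cases u <;> cases F <;> cases G <;> simp
  · rintro (j | j) hj
    · simp only [Sum.elim_inl] at hj ⊢
      have h1 := hey j
      have h2 := hy j
      unfold sd at h2
      revert h1 h2 hj
      generalize y j (Fin.natAdd n 0) = t
      generalize y j (Fin.natAdd n 1) = u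
      generalize f (fun i => y j (Fin.castAdd 2 i)) = F
      generalize f (fun i => !y j (Fin.castAdd 2 i)) = G
      cases t <;> cases u <;> cases F <;> cases G <;> simp
    · simp only [Sum.elim_inr] at hj ⊢
      have h1 := hex j
      have h2 := hx j
      unfold sd at h2
      revert h1 h2 hj
      generalize x j (Fin.natAdd n 0) = t
      generalize x j (Fin.natAdd n 1) = u
      generalize f (fun i => x j (Fin.castAdd 2 i)) = F
      generalize f (fun i => !x j (Fin.castAdd 2 i)) = G
      cases t <;> cases u <;> cases F <;> cases G <;> simp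
  · rw [Fintype.sum_sum_type, Fintype.sum_sum_type]
    simp only [Sum.elim_inl, Sum.elim_inr]
    omega
  · intro v
    rw [Fintype.sum_sum_type, Fintype.sum_sum_type]
    simp only [Sum.elim_inl, Sum.elim_inr]
    have hv := hs (Fin.castAdd 2 v)
    have e1 : ∀ j, (x j (Fin.natAdd n 0)).toNat * (x j (Fin.castAdd 2 v)).toNat
        + (x j (Fin.natAdd n 1)).toNat =
        (x j (Fin.castAdd 2 v)).toNat
          + (x j (Fin.natAdd n 1)).toNat * (!x j (Fin.castAdd 2 v)).toNat := by
      intro j
      have h1 := hex j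
      revert h1
      generalize x j (Fin.natAdd n 0) = t
      generalize x j (Fin.natAdd n 1) = u
      generalize x j (Fin.castAdd 2 v) = a
      cases t <;> cases u <;> cases a <;> simp
    have e2 : ∀ j, (y j (Fin.natAdd n 0)).toNat * (y j (Fin.castAdd 2 v)).toNat
        + (y j (Fin.natAdd n 1)).toNat =
        (y j (Fin.castAdd 2 v)).toNat
          + (y j (Fin.natAdd n 1)).toNat * (!y j (Fin.castAdd 2 v)).toNat := by
      intro j
      have h1 := hey j
      revert h1
      generalize y j (Fin.natAdd n 0) = t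
      generalize y j (Fin.natAdd n 1) = u
      generalize y j (Fin.castAdd 2 v) = a
      cases t <;> cases u <;> cases a <;> simp
    have s1 := Finset.sum_congr (s₁ := (Finset.univ : Finset (Fin k))) rfl (fun j _ => e1 j)
    have s2 := Finset.sum_congr (s₁ := (Finset.univ : Finset (Fin k))) rfl (fun j _ => e2 j)
    rw [Finset.sum_add_distrib, Finset.sum_add_distrib] at s1 s2
    omega

lemma sd_asummable {f : (Fin n → Bool) → Bool} {m : ℕ} (h : Asummable m f) :
    Asummable m (sd f) := fun k h1 h2 h3 => h k h1 h2 (sd_ksummable h3)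

end Pool.Agent.Y243.SDual
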