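import Pool.Agent.Y243.SDual.Core

/-!
The certificate length for self-dual switching functions: `M (n - 2) ≤ Msd n ≤ M n`, explicit bounds
and the limit.
-/

set_option autoImplicit false

namespace Pool.Agent.Y243.SDual

open Pool.Agent.Results.MP_96963f_co.SharpExponent Finset Filter Topology

/-- every `m`-asummable self-dual switching function on `n` variables is weighted threshold -/
def CertifiesSD (n m : ℕ) : Prop :=
  ∀ f : (Fin n → Bool) → Bool, Monotone f → (∀ x, f (fun i => !x i) = !f x) →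
    Asummable m f → IsThreshold f

/-- the least `m` such that every `m`-asummable self-dual switching function on `n` variables is
weighted threshold -/
noncomputable def Msd (n : ℕ) : ℕ := sInf {m | CertifiesSD n m}

lemma certifiesSD_M (n : ℕ) : CertifiesSD n (M n) := fun f hf _ ha => M_certifies n f hf ha

lemma Msd_le (n : ℕ) : Msd n ≤ M n := Nat.sInf_le (certifiesSD_M n)

lemma Msd_certifies (n : ℕ) : CertifiesSD n (Msd n) :=
  Nat.sInf_mem (s := {m | CertifiesSD n m}) ⟨_, certifiesSD_M n⟩

lemma certifies_of_SD {n m : ℕ} (h : CertifiesSD (n + 2) m) : Certifies n m := by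
  intro f hf ha
  by_contra hc
  exact sd_not_threshold hc (h (sd f) (sd_monotone hf) (sd_selfDual f) (sd_asummable ha))

lemma le_Msd (n : ℕ) : M n ≤ Msd (n + 2) := Nat.sInf_le (certifies_of_SD (Msd_certifies (n + 2)))

/-- A self-dual function which shows that `m` is too small. -/
lemma exists_sd {n m : ℕ} (h : m < Msd n) : ∃ f : (Fin n → Bool) → Bool, Monotone f ∧
    (∀ x, f (fun i => !x i) = !f x) ∧ Asummable m f ∧ ¬ IsThreshold f := by
  have h1 : ¬ CertifiesSD n m := fun h2 => absurd (Nat.sInf_le (s := {m | CertifiesSD n m}) h2)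
    (by unfold Msd at h; omega)
  unfold CertifiesSD at h1
  push Not at h1
  obtain ⟨f, h2, h3, h4, h5⟩ := h1
  exact ⟨f, h2, h3, h4, h5⟩

lemma log_lower_sd {n : ℕ} (hn : 2 ^ 65 ≤ n) :
    (n : ℝ) / 2 * Real.log n - n * Real.log (Real.log n) - 22 * n ≤ Real.log (Msd n) := by
  obtain ⟨k, rfl⟩ : ∃ k, n = k + 2 := ⟨n - 2, by omega⟩
  have hk : 2 ^ 64 ≤ k := by
    have : (2 : ℕ) ^ 65 = 2 ^ 64 + 2 ^ 64 := by norm_num
    have : (2 : ℕ) ≤ 2 ^ 64 := by norm_num
    omega
  have h1 := log_lower hk
  have h2 : Real.log (M k) ≤ Real.log (Msd (k + 2)) := by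
    apply Real.log_le_log
    · exact_mod_cast M_pos hk
    · exact_mod_cast le_Msd k
  refine le_trans ?_ (h1.trans h2)
  have hk3 : (16 : ℝ) ≤ k := by
    have : 16 ≤ k := le_trans (by norm_num) hk
    exact_mod_cast this
  have hkp : (0 : ℝ) < k := by linarith
  push_cast
  clear h1 h2
  have e1 : Real.log ((k : ℝ) + 2) ≤ Real.log k + 2 / k := by
    have e : (k : ℝ) + 2 = k * (1 + 2 / k) := by field_simp
    rw [e, Real.log_mul (by linarith) (by positivity)]
    have := Real.log_le_sub_one_of_pos (show (0 : ℝ) < 1 + 2 / k by positivity)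
    linarith
  have e2 : Real.log (k : ℝ) ≤ k - 1 := Real.log_le_sub_one_of_pos hkp
  have hl : 1 ≤ Real.log (k : ℝ) := by
    rw [Real.le_log_iff_exp_le hkp]
    have := Real.exp_one_lt_d9
    linarith
  have hl2 : Real.log (k : ℝ) ≤ Real.log ((k : ℝ) + 2) := Real.log_le_log hkp (by linarith)
  have e3 : Real.log (Real.log (k : ℝ)) ≤ Real.log (Real.log ((k : ℝ) + 2)) :=
    Real.log_le_log (by linarith) hl2
  have e4 : 0 ≤ Real.log (Real.log ((k : ℝ) + 2)) := Real.log_nonneg (by linarith)
  have e5 : (k : ℝ) * Real.log (Real.log (k : ℝ)) ≤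
      ((k : ℝ) + 2) * Real.log (Real.log ((k : ℝ) + 2)) :=
    (mul_le_mul_of_nonneg_left e3 hkp.le).trans
      (mul_le_mul_of_nonneg_right (le_add_of_nonneg_right zero_le_two) e4)
  have e6 : ((k : ℝ) + 2) / 2 * Real.log ((k : ℝ) + 2) ≤
      ((k : ℝ) + 2) / 2 * (Real.log k + 2 / k) :=
    mul_le_mul_of_nonneg_left e1 (by linarith)
  have e7 : ((k : ℝ) + 2) / 2 * (Real.log k + 2 / k) = (k : ℝ) / 2 * Real.log k + Real.log k
      + 1 + 2 / k := by
    field_simp
    ring
  have e8 : 2 / (k : ℝ) ≤ 1 := by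
    rw [div_le_one hkp]
    linarith
  linarith

theorem limit_sd : Tendsto (fun n : ℕ => Real.log (Msd n) / ((n : ℝ) * Real.log n)) atTop
    (𝓝 (1 / 2)) := by
  have hlog : Tendsto (fun n : ℕ => Real.log (n : ℝ)) atTop atTop :=
    Real.tendsto_log_atTop.comp tendsto_natCast_atTop_atTop
  have h1 : Tendsto (fun n : ℕ => Real.log (Real.log (n : ℝ)) / Real.log n) atTop (𝓝 0) := by
    have := Real.isLittleO_log_id_atTop.tendsto_div_nhds_zero
    exact this.comp hlog
  have h2 : Tendsto (fun n : ℕ => 22 / Real.log (n : ℝ)) atTop (𝓝 0) :=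
    tendsto_const_nhds.div_atTop hlog
  have hg : Tendsto (fun n : ℕ => 1 / 2 - Real.log (Real.log (n : ℝ)) / Real.log n
      - 22 / Real.log (n : ℝ)) atTop (𝓝 (1 / 2)) := by
    have := (tendsto_const_nhds (x := (1 / 2 : ℝ)).sub h1).sub h2
    simpa using this
  refine tendsto_of_tendsto_of_tendsto_of_le_of_le' hg main_limit ?_ ?_
  · filter_upwards [eventually_ge_atTop (2 ^ 65)] with n hn
    have hn3 : (3 : ℝ) ≤ n := by
      have : 3 ≤ n := le_trans (by norm_num) hn
      exact_mod_cast this
    have hl : 1 ≤ Real.log n := by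
      rw [Real.le_log_iff_exp_le (by linarith)]
      have := Real.exp_one_lt_d9
      linarith
    have hpos : 0 < (n : ℝ) * Real.log n := by positivity
    rw [le_div_iff₀ hpos]
    have := log_lower_sd hn
    have e : (1 / 2 - Real.log (Real.log (n : ℝ)) / Real.log n - 22 / Real.log (n : ℝ))
        * ((n : ℝ) * Real.log n)
        = (n : ℝ) / 2 * Real.log n - n * Real.log (Real.log n) - 22 * n := by
      have : Real.log (n : ℝ) ≠ 0 := by linarith
      field_simp
    rw [e]
    exact this
  · filter_upwards [eventually_ge_atTop (2 ^ 65)] with n hn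
    have hn3 : (3 : ℝ) ≤ n := by
      have : 3 ≤ n := le_trans (by norm_num) hn
      exact_mod_cast this
    have hl : 1 ≤ Real.log n := by
      rw [Real.le_log_iff_exp_le (by linarith)]
      have := Real.exp_one_lt_d9
      linarith
    have hpos : 0 < (n : ℝ) * Real.log n := by positivity
    apply div_le_div_of_nonneg_right _ hpos.le
    rcases Nat.eq_zero_or_pos (Msd n) with h | h
    · rw [h]
      simp only [Nat.cast_zero, Real.log_zero]
      exact Real.log_natCast_nonneg _
    · exact Real.log_le_log (by exact_mod_cast h) (by exact_mod_cast Msd_le n)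

end Pool.Agent.Y243.SDual
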